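import Pool.Agent.Helper48.DGR.St
import Pool.Agent.Helper84.MT.Fun

/-! Row EMB of DGR: a form of degree `D` is a form of degree `D'` for `D ≤ D'`; the volume decreases with the degree;
the optimal form of degree `D'` dominates every admissible form of degree `D` on the common label. -/

set_option autoImplicit false

namespace Pool.Agent.Helper69.DGR

open Finset Filter Topology Matrix Pool.Agent.Helper69.RK Pool.Agent.Helper31.EC
open Pool.Agent.Helper31.EC.Sp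
open Pool.Agent.Helper40.EL Pool.Agent.Helper89.LX Pool.Agent.Helper3.LF Pool.Agent.Helper84.MT Pool.Agent.Helper59.LF
open Pool.Agent.Helper95.LF
open Pool.Agent.Helper48.DGR

noncomputable section

variable {M D D' : ℕ}

/-! ### monomials -/

theorem em_ex (h : D ≤ D') (a : Mon M D) : (em h a).ex = a.ex := by
  ext i
  rfl

theorem em_mon (h : D ≤ D') (a : Mon M D) : (em h a).mon = a.mon := by
  unfold Mon.mon
  rw [em_ex]

theorem em_vv (h : D ≤ D') (q : Fin M → ℝ) (a : Mon M D) : vv q (em h a) = vv q a := by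
  unfold vv
  rw [em_mon]

theorem em_dd (h : D ≤ D') (i : Fin M) (q : Fin M → ℝ) (a : Mon M D) : dd i q (em h a) = dd i q a := by
  unfold dd
  rw [em_mon]

theorem em_inj (h : D ≤ D') : Function.Injective (em (M := M) h) := by
  intro a b hab
  apply Subtype.ext
  funext i
  have h1 := congrArg (fun c : Mon M D' => ((c.1 i : Fin (D' + 1)) : ℕ)) hab
  exact Fin.ext h1

/-- restriction of a vector of coefficients to the monomials of degree at most `D` -/
def rs (h : D ≤ D') (v : Mon M D' → ℝ) : Mon M D → ℝ := fun a => v (em h a)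

theorem rs_vv (h : D ≤ D') (q : Fin M → ℝ) : rs h (vv q : Mon M D' → ℝ) = vv q := funext fun a => em_vv h q a

theorem rs_Wq (h : D ≤ D') (q e : Fin M → ℝ) : rs h (Wq M D' q *ᵥ e) = Wq M D q *ᵥ e := by
  funext a
  show ∑ i, dd i q (em h a) * e i = ∑ i, dd i q a * e i
  exact Finset.sum_congr rfl fun i _ => by rw [em_dd]

theorem rs_le (h : D ≤ D') (v : Mon M D' → ℝ) : rs h v ⬝ᵥ rs h v ≤ v ⬝ᵥ v := by
  classical
  unfold dotProduct rs
  have h1 : ∑ a : Mon M D, v (em h a) * v (em h a) = ∑ b ∈ Finset.univ.image (em (M := M) h), v b * v b := by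
    rw [Finset.sum_image]
    intro a _ b _ hab
    exact em_inj h hab
  rw [h1]
  exact Finset.sum_le_sum_of_subset_of_nonneg (Finset.subset_univ _) fun i _ _ => mul_self_nonneg _

/-- the matrix of the restriction -/
def Em (h : D ≤ D') : Matrix (Mon M D) (Mon M D') ℝ := Matrix.of fun a b => if em h a = b then 1 else 0

theorem Em_mulVec (h : D ≤ D') (v : Mon M D' → ℝ) : Em h *ᵥ v = rs h v := by
  funext a
  show ∑ b, (if em h a = b then (1 : ℝ) else 0) * v b = v (em h a)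
  simp only [ite_mul, one_mul, zero_mul, Finset.sum_ite_eq, Finset.mem_univ, if_true]

/-- the form of degree `D'` -/
def upm (h : D ≤ D') (A : Matrix (Mon M D) (Mon M D) ℝ) : Matrix (Mon M D') (Mon M D') ℝ :=
  Matrix.transpose (Em (M := M) h) * (A - (1 : Matrix (Mon M D) (Mon M D) ℝ)) * Em (M := M) h + 1

theorem upm_symm (h : D ≤ D') {A : Matrix (Mon M D) (Mon M D) ℝ} (hA : A.IsSymm) : (upm h A).IsSymm := by
  unfold upm
  refine Matrix.IsSymm.add ?_ Matrix.isSymm_one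
  have h1 : (A - 1 : Matrix (Mon M D) (Mon M D) ℝ).IsSymm := hA.sub Matrix.isSymm_one
  unfold Matrix.IsSymm
  rw [Matrix.transpose_mul, Matrix.transpose_mul, Matrix.transpose_transpose, h1.eq, Matrix.mul_assoc]

theorem upm_qf (h : D ≤ D') (A : Matrix (Mon M D) (Mon M D) ℝ) (v : Mon M D' → ℝ) :
    v ⬝ᵥ (upm h A *ᵥ v) = rs h v ⬝ᵥ (A *ᵥ rs h v) + (v ⬝ᵥ v - rs h v ⬝ᵥ rs h v) := by
  unfold upm
  rw [dv_add, dv_conj, Em_mulVec, Matrix.one_mulVec, Matrix.sub_mulVec, Matrix.one_mulVec, dotProduct_sub]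
  ring

theorem upm_ge (h : D ≤ D') (A : Matrix (Mon M D) (Mon M D) ℝ) (v : Mon M D' → ℝ) :
    rs h v ⬝ᵥ (A *ᵥ rs h v) ≤ v ⬝ᵥ (upm h A *ᵥ v) := by
  rw [upm_qf]
  have := rs_le h v
  linarith

theorem upm_Cpd (h : D ≤ D') {c c' : ℝ} (hc : c ≤ c') (hc1 : 1 ≤ c') {A : Matrix (Mon M D) (Mon M D) ℝ}
    (hA : Cpd c A) : Cpd c' (upm h A) := by
  refine ⟨upm_symm h hA.1, fun v => ?_, fun v => ?_⟩
  · show v ⬝ᵥ v ≤ v ⬝ᵥ (upm h A *ᵥ v)
    rw [upm_qf]
    have h1 : rs h v ⬝ᵥ rs h v ≤ rs h v ⬝ᵥ (A *ᵥ rs h v) := hA.2.1 (rs h v)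
    linarith
  · show v ⬝ᵥ (upm h A *ᵥ v) ≤ c' * (v ⬝ᵥ v)
    rw [upm_qf]
    have h1 : rs h v ⬝ᵥ (A *ᵥ rs h v) ≤ c * (rs h v ⬝ᵥ rs h v) := hA.2.2 (rs h v)
    have h2 := rs_le h v
    have h3 : 0 ≤ rs h v ⬝ᵥ rs h v := dot_self_nonneg _
    nlinarith

/-! ### size -/

theorem nod_dist (E : ℕ) (p : Fin M → ℝ) (r : ℝ) (hr : 0 < r) (j : Fin M → Fin (E + 1)) (i : Fin M) :
    |nodp E p r j i - p i| ≤ 1 * r := by
  have e1 : nodp E p r j i - p i = r * nod E (j i) := by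
    unfold nodp
    ring
  rw [e1, abs_mul, abs_of_pos hr, abs_of_nonneg (nod_nonneg E _), one_mul]
  calc r * nod E (j i) ≤ r * 1 := mul_le_mul_of_nonneg_left (nod_le E _ (Nat.le_of_lt_succ (j i).2)) hr.le
    _ = r := mul_one _

/-- the size of a polynomial of degree `D` on the nodes of degree `E` -/
theorem ph_deg (E : ℕ) (q : MvPolynomial (Fin M) ℝ) (hq : q.totalDegree ≤ D) (r : ℝ) (hr : 0 < r)
    (p : Fin M → ℝ) : ph E q r p ≤ (nn M E * Cm M D ^ 2) * ph D q r p := by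
  have h1 : ∀ j ∈ (Finset.univ : Finset (Fin M → Fin (E + 1))), (MvPolynomial.eval (nodp E p r j) q) ^ 2 ≤
      Cm M D ^ 2 * ph D q r p := by
    intro j _
    have h2 := val_le q hq r 1 hr le_rfl p (nodp E p r j) (nod_dist E p r hr j)
    rwa [one_pow, mul_one] at h2
  refine (Finset.sum_le_card_nsmul _ _ _ h1).trans (le_of_eq ?_)
  rw [nsmul_eq_mul, card_nodes]
  ring

theorem phi_upm (h : D ≤ D') (A : Matrix (Mon M D) (Mon M D) ℝ) (hA : PdM A) (r : ℝ) (hr : 0 < r)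
    (p : Fin M → ℝ) : phi r (upm h A) p ≤ (nn M D' * Cm M D ^ 2) * phi r A p +
      phi r (1 : Matrix (Mon M D') (Mon M D') ℝ) p := by
  obtain ⟨C, hC, h1, -⟩ := exists_rows A hA
  have h2 : phi r (upm h A) p ≤ (∑ j : Fin M → Fin (D' + 1), (vv (nodp D' p r j) : Mon M D → ℝ) ⬝ᵥ
      (A *ᵥ vv (nodp D' p r j))) + phi r (1 : Matrix (Mon M D') (Mon M D') ℝ) p := by
    unfold phi
    rw [← Finset.sum_add_distrib]
    refine Finset.sum_le_sum fun j _ => ?_
    rw [upm_qf, rs_vv, Matrix.one_mulVec]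
    have h3 : 0 ≤ (vv (nodp D' p r j) : Mon M D → ℝ) ⬝ᵥ vv (nodp D' p r j) := dot_self_nonneg _
    linarith
  refine h2.trans (add_le_add ?_ le_rfl)
  rw [h1, Finset.mul_sum]
  have h4 : ∑ j : Fin M → Fin (D' + 1), (vv (nodp D' p r j) : Mon M D → ℝ) ⬝ᵥ
      (A *ᵥ vv (nodp D' p r j)) = ∑ k, ph D' (pol (C k)) r p := by
    rw [hC]
    unfold ph
    rw [Finset.sum_comm (s := (Finset.univ : Finset (Mon M D)))]
    refine Finset.sum_congr rfl fun j _ => ?_
    rw [qf_rows]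
    exact Finset.sum_congr rfl fun k _ => by rw [eval_pol]
  rw [h4]
  exact Finset.sum_le_sum fun k _ => ph_deg D' _ (pol_deg _) r hr p

/-! ### gradients -/

theorem Jq_upm (h : D ≤ D') (A : Matrix (Mon M D) (Mon M D) ℝ) (hA : PdM A) (r : ℝ) (hr : 0 < r)
    (p e : Fin M → ℝ) : e ⬝ᵥ (Jq r A p *ᵥ e) ≤
      (nn M D * Cm M D' ^ 2) * (e ⬝ᵥ (Jq r (upm h A) p *ᵥ e)) := by
  obtain ⟨C, hC, -⟩ := exists_factor A hA
  have h0 : 0 ≤ nn M D * Cm M D' ^ 2 := by
    have := nn_one M D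
    positivity
  have h1 : ∑ k, ph D' (dir e (pol (C k))) r p ≤ e ⬝ᵥ (Jq r (upm h A) p *ᵥ e) := by
    rw [Jq_qf]
    unfold ph
    rw [Finset.sum_comm (s := (Finset.univ : Finset (Mon M D)))]
    refine Finset.sum_le_sum fun j _ => ?_
    refine le_trans ?_ (upm_ge h A _)
    rw [rs_Wq, hC, qf_rows]
    exact le_of_eq (Finset.sum_congr rfl fun k _ => by rw [eval_dir])
  refine le_trans ?_ (mul_le_mul_of_nonneg_left h1 h0)
  conv_lhs => rw [hC]
  rw [Jq_rows, Finset.mul_sum]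
  refine Finset.sum_le_sum fun k _ => ?_
  exact ph_deg D _ ((dir_deg e _ (pol_deg _)).trans h) r hr p

/-- constant of the comparison of the volumes -/
def cE (M D D' : ℕ) : ℝ := nn M D * Cm M D' ^ 2

theorem cE_one (M D D' : ℕ) : 1 ≤ cE M D D' :=
  one_le_mul_of_one_le_of_one_le (nn_one M D) (one_le_pow₀ (Cm_one M D'))

theorem GQ_upm (h : D ≤ D') (A : Matrix (Mon M D) (Mon M D) ℝ) (hA : PdM A) (hB : PdM (upm h A)) (r : ℝ) (hr : 0 < r)
    (p : Fin M → ℝ) : GQ r A p ≤ cE M D D' ^ M * GQ r (upm h A) p := by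
  have hc := cE_one M D D'
  have h4 : ∀ x : Fin M → ℝ, x ⬝ᵥ ((1 + Jq r A p) *ᵥ x) ≤ cE M D D' * (x ⬝ᵥ ((1 + Jq r (upm h A) p) *ᵥ x)) := by
    intro x
    rw [dv_add, dv_add, one_dv, mul_add]
    have h6 := self_nonneg' x
    exact add_le_add (by nlinarith) (Jq_upm h A hA r hr p x)
  have h5 := det_le_pow (one_Jq_pd r hB.1 hB.nonneg p) (one_Jq_pd r hA.1 hA.nonneg p) (by linarith) h4
  rw [Fintype.card_fin] at h5
  exact h5

/-! ### labels with forms -/

/-- a label with forms of degree `D` as a label with forms of degree `D'` -/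
def upx {F : FSp} (h : D ≤ D') (x : FD F (Mon M D)) : FD F (Mon M D') where
  l := x.l
  g := fun ω => upm h (x.g ω)
  g' := fun ω => upm h (x.g' ω)
  meas := fun ω ω' a b c d => by
    obtain ⟨h1, h2⟩ := x.meas ω ω' a b c d
    rw [h1, h2]
    exact ⟨rfl, rfl⟩

variable {S : Sp} {κ : Type} {A : κ → Part S} {Q : S.VV M}

theorem cp_le (h : D ≤ D') (Q : S.VV M) (k : ℕ) : (gaq Q D).cp k ≤ (gaq Q D').cp k := by
  unfold Gau.cp
  apply Real.rpow_le_rpow_of_exponent_le (by norm_num)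
  apply mul_le_mul_of_nonneg_right _ (S.F k).pos.le
  have h1 : (gaq Q D).C = 2 * D + 1 := rfl
  have h2 : (gaq Q D').C = 2 * D' + 1 := rfl
  rw [h1, h2]
  have : (D : ℝ) ≤ D' := Nat.cast_le.2 h
  linarith

theorem upx_Adf (h : D ≤ D') {x : ∀ k, FD (S.F k) (Mon M D)} (hx : (gaq Q D).Adf A x) :
    (gaq Q D').Adf A (fun k => upx h (x k)) := by
  intro η hη
  obtain ⟨K, hK, h1⟩ := (gaq Q D').one
  have h0 : (0 : ℝ) ≤ nn M D' * Cm M D ^ 2 := by
    have := nn_one M D'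
    positivity
  have h2 : S.Sub (fun k => nn M D' * Cm M D ^ 2 + K k) := (S.Sub_const h0).add hK
  have hη2 : 0 < η / 2 := by linarith
  filter_upwards [hx _ hη2, h1, h2.eventually_le hη2, hK.1] with k hk h1 h2 hK0
  have hn := (S.F k).pos
  have e0 : η / 2 * (S.F k).n ≤ η * (S.F k).n := by nlinarith
  have key : ∀ ω, (x k).l.T.μ ω ≠ 0 → ∀ B : Matrix (Mon M D) (Mon M D) ℝ, Cpd ((gaq Q D).cp k) B →
      (gaq Q D).φ k ((x k).l.p.π ω) B ≤ 2 ^ (η / 2 * (S.F k).n) →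
      (gaq Q D').φ k ((x k).l.p.π ω) (upm h B) ≤ 2 ^ (η * (S.F k).n) := by
    intro ω hω B hB h3
    have h4 : phi (S.dl 1 k) (upm h B) (Q.v k ((x k).l.p.π ω)) ≤ _ :=
      phi_upm h B hB.pdM (S.dl 1 k) (S.dl_pos 1 k) _
    have h5 : phi (S.dl 1 k) (1 : Matrix (Mon M D') (Mon M D') ℝ) (Q.v k ((x k).l.p.π ω)) ≤ K k :=
      h1 _ ((x k).l.p.supp ω hω)
    have h6 : phi (S.dl 1 k) B (Q.v k ((x k).l.p.π ω)) ≤ 2 ^ (η / 2 * (S.F k).n) := h3
    show phi (S.dl 1 k) (upm h B) (Q.v k ((x k).l.p.π ω)) ≤ _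
    have h7 : (1 : ℝ) ≤ 2 ^ (η / 2 * (S.F k).n) := Real.one_le_rpow (by norm_num) (by positivity)
    have e2 : (2 : ℝ) ^ (η * (S.F k).n) = 2 ^ (η / 2 * (S.F k).n) * 2 ^ (η / 2 * (S.F k).n) := by
      rw [← Real.rpow_add (by norm_num)]
      congr 1; ring
    rw [e2]
    calc phi (S.dl 1 k) (upm h B) (Q.v k ((x k).l.p.π ω)) ≤
          (nn M D' * Cm M D ^ 2) * 2 ^ (η / 2 * (S.F k).n) + K k :=
          h4.trans (add_le_add (mul_le_mul_of_nonneg_left h6 h0) h5)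
      _ ≤ (nn M D' * Cm M D ^ 2 + K k) * 2 ^ (η / 2 * (S.F k).n) := by nlinarith
      _ ≤ _ := mul_le_mul_of_nonneg_right (by linarith) (by positivity)
  refine ⟨fun i => (hk.1 i).trans e0, fun ω h0 => ?_, ?_, ?_⟩
  · exact ⟨upm_Cpd h (cp_le h Q k) ((gaq Q D').one_le_cp k) (hk.2.1 ω h0).1,
      upm_Cpd h (cp_le h Q k) ((gaq Q D').one_le_cp k) (hk.2.1 ω h0).2⟩
  · refine le_trans ((x k).l.T.pb_mono ?_) (hk.2.2.1.trans (by linarith : η / 2 ≤ η))
    intro ω hω h3 h4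
    exact h3 (key ω hω _ (hk.2.1 ω hω).1 h4)
  · refine le_trans ((x k).l.T.pb_mono ?_) (hk.2.2.2.trans (by linarith : η / 2 ≤ η))
    intro ω hω h3 h4
    exact h3 (key ω hω _ (hk.2.1 ω hω).2 h4)

/-! ### the volume -/

theorem vol_upx (h : D ≤ D') {x : ∀ k, FD (S.F k) (Mon M D)} (hx : (gaq Q D).Adf A x) :
    vol Q D' (fun k => upx h (x k)) ≤ vol Q D x := by
  have hy := upx_Adf h hx
  rw [Pool.Agent.Helper14.MC.vol_eq, Pool.Agent.Helper14.MC.vol_eq]
  have hUx := Pool.Agent.Helper14.MC.vx_UB hx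
  have hUy := Pool.Agent.Helper14.MC.vx_UB hy
  have hle : ∀ᶠ k in UF, Pool.Agent.Helper14.MC.vx Q x k ≤
      Pool.Agent.Helper14.MC.vx Q (fun k => upx h (x k)) k + (M * Real.logb 2 (cE M D D') / 2) / (S.F k).n := by
    filter_upwards [hx 1 one_pos, hy 1 one_pos] with k b3 b4
    have hn := (S.F k).pos
    have h1 : Pool.Agent.Helper14.MC.vx Q x k - Pool.Agent.Helper14.MC.vx Q (fun k => upx h (x k)) k ≤
        (M * Real.logb 2 (cE M D D') / 2) / (S.F k).n := by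
      have e3 : Pool.Agent.Helper14.MC.vx Q x k - Pool.Agent.Helper14.MC.vx Q (fun k => upx h (x k)) k =
          ∑ ω : (x k).l.T.Ω, (x k).l.T.μ ω * (Pool.Agent.Helper14.MC.gx Q k ((x k).l.p.π ω) ((x k).g ω) -
            Pool.Agent.Helper14.MC.gx Q k ((x k).l.p.π ω) (upm h ((x k).g ω))) := by
        unfold Pool.Agent.Helper14.MC.vx
        show ∑ ω : (x k).l.T.Ω, (x k).l.T.μ ω * Pool.Agent.Helper14.MC.gx Q k ((x k).l.p.π ω) ((x k).g ω) -
          ∑ ω : (x k).l.T.Ω, (x k).l.T.μ ω * Pool.Agent.Helper14.MC.gx Q k ((x k).l.p.π ω) (upm h ((x k).g ω)) = _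
        rw [← Finset.sum_sub_distrib]
        exact Finset.sum_congr rfl fun w _ => by ring
      rw [e3]
      apply sum_mul_le (F := (x k).l.T)
      intro ω hω
      have c1 := (b3.2.1 ω hω).1
      have c2 : Cpd ((gaq Q D').cp k) (upm h ((x k).g ω)) := (b4.2.1 ω hω).1
      set p := Q.v k ((x k).l.p.π ω) with hp
      have h2 := GQ_upm h ((x k).g ω) c1.pdM c2.pdM (S.dl 1 k) (S.dl_pos 1 k) p
      have h3 := one_le_GQ (S.dl 1 k) c1.1 c1.psd.2 p
      have h4 := one_le_GQ (S.dl 1 k) c2.1 c2.psd.2 p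
      have hc := cE_one M D D'
      have h5 := Real.logb_le_logb_of_le (b := 2) (by norm_num) (by linarith) h2
      rw [Real.logb_mul (by positivity) (by linarith), Real.logb_pow] at h5
      show Real.logb 2 (GQ (S.dl 1 k) ((x k).g ω) p) / (2 * (S.F k).n) -
        Real.logb 2 (GQ (S.dl 1 k) (upm h ((x k).g ω)) p) / (2 * (S.F k).n) ≤ _
      rw [← sub_div, div_div]
      apply div_le_div_of_nonneg_right _ (by positivity)
      linarith
    linarith
  have t0 : Tendsto (fun k => (M * Real.logb 2 (cE M D D') / 2) / (S.F k).n) UF (𝓝 0) :=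
    Tendsto.div_atTop tendsto_const_nhds S.lim
  have t1 := ul_tendsto hUx
  have t2 := (ul_tendsto hUy).add t0
  rw [add_zero] at t2
  have := le_of_tendsto_of_tendsto t1 t2 hle
  linarith

/-! ### domination in the other order of the join -/

theorem swap_Adf {ι : Type} [Fintype ι] [DecidableEq ι] {Φ : Gau S ι} {x : ∀ k, FD (S.F k) ι} (hx : Φ.Adf A x) :
    Φ.Adf A (fun k => (x k).swap) := by
  intro η hη
  filter_upwards [hx η hη] with k hk
  exact ⟨hk.1, fun ω hω => ⟨(hk.2.1 ω hω).2, (hk.2.1 ω hω).1⟩, hk.2.2.2, hk.2.2.1⟩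

theorem jj_swap_sc {ι : Type} [Fintype ι] [DecidableEq ι] {F : FSp} (x y : FD F ι) : (x.jj y).swap.sc = y.sc :=
  sum_push (x.l.am y.l).p2 (fun ω => Real.logb 2 (y.g ω).det)

theorem dom_swap {ι : Type} [Fintype ι] [DecidableEq ι] {Φ : Gau S ι} {x y : ∀ k, FD (S.F k) ι}
    (hx : Φ.Optf A x) (hy : Φ.Adf A y) (e : ℝ) (he : 0 < e) :
    Tendsto (fun k => ((y k).l.am (x k).l).sp.pb (fun w =>
      ¬ ∀ v, qf ((y k).g (((y k).l.am (x k).l).p1.π w)) v ≤
        2 ^ (e * (S.F k).n) * qf ((x k).g (((y k).l.am (x k).l).p2.π w)) v)) UF (𝓝 0) := by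
  have h1 : Φ.Adf A (fun k => ((y k).jj (x k)).swap) := swap_Adf (Gau.Adf.jj Φ hy hx.1)
  refine Φ.opt_nearf h1 (fun z hz => ?_) e he
  have h2 : (fun k => (((y k).jj (x k)).swap).sc / (S.F k).n) = fun k => (x k).sc / (S.F k).n := by
    funext k
    rw [jj_swap_sc]
  rw [h2]
  exact hx.2 z hz

/-- ROW EMB -/
theorem embP (M : ℕ) : EmbP M := by
  intro D D' h S ι _ E s
  constructor
  · obtain ⟨x, hx⟩ := s.exists_can D 0
    rw [← s.vol_eq hx.1]
    exact (s.vol_le_of (upx_Adf h hx.1.1)).trans (vol_upx h hx.1.1)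
  · intro x x' hx hx' e he
    have h1 := dom_swap hx' (upx_Adf h hx) e he
    refine tendsto_of_tendsto_of_tendsto_of_le_of_le tendsto_const_nhds h1
      (fun k => FSp.pb_nonneg _ _) (fun k => ?_)
    apply FSp.pb_mono
    intro w _ h3 h4
    apply h3
    intro v
    exact (upm_ge h _ v).trans (h4 v)

end

end Pool.Agent.Helper69.DGR
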